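import Pool.Agent.H666.LRC.Defs

set_option autoImplicit false

/-! Part T6 of the project LRC: a sum with logarithms. -/

namespace Pool.Agent.H162.LRC

theorem tel (h : ℝ) (hh : 0 < h) (R : ℕ) :
    ∑ k ∈ Finset.Icc 1 R, h / (√(1 + h * (k : ℝ))) ^ 3 ≤ 2 - 2 / √(1 + h * (R : ℝ)) := by
  induction R with
  | zero => simp
  | succ R ih =>
    rw [Finset.sum_Icc_succ_top (by omega)]
    have hR : (0 : ℝ) ≤ R := Nat.cast_nonneg R
    have ha0 : 0 < 1 + h * (R : ℝ) := by positivity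
    have hb0 : 0 < 1 + h * ((R + 1 : ℕ) : ℝ) := by positivity
    set a := √(1 + h * (R : ℝ)) with ha
    set b := √(1 + h * ((R + 1 : ℕ) : ℝ)) with hb
    have ha1 : 0 < a := Real.sqrt_pos.2 ha0
    have hb1 : 0 < b := Real.sqrt_pos.2 hb0
    have ha2 : a ^ 2 = 1 + h * (R : ℝ) := Real.sq_sqrt ha0.le
    have hb2 : b ^ 2 = 1 + h * ((R + 1 : ℕ) : ℝ) := Real.sq_sqrt hb0.le
    have hd : b ^ 2 - a ^ 2 = h := by
      rw [ha2, hb2]
      push_cast
      ring
    have hab : a ≤ b := by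
      apply Real.sqrt_le_sqrt
      push_cast
      nlinarith
    have key : h / b ^ 3 ≤ 2 / a - 2 / b := by
      rw [div_sub_div _ _ ha1.ne' hb1.ne', div_le_div_iff₀ (by positivity) (by positivity), ← hd]
      have e1 : (b ^ 2 - a ^ 2) * (a * b) = (b - a) * (b * ((b + a) * a)) := by ring
      have e2 : (2 * b - a * 2) * b ^ 3 = (b - a) * (b * (2 * b ^ 2)) := by ring
      rw [e1, e2]
      apply mul_le_mul_of_nonneg_left _ (by linarith)
      apply mul_le_mul_of_nonneg_left _ hb1.le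
      nlinarith
    linarith

theorem pow_log (p : ℕ) (z : ℝ) (hz : 1 ≤ z) :
    (1 + 2 * Real.log z) ^ p ≤ (4 * (p : ℝ) + 5) ^ p * √z := by
  have hp : (0 : ℝ) ≤ p := Nat.cast_nonneg p
  set ε : ℝ := 1 / (2 * ((p : ℝ) + 1)) with hε
  have hε0 : 0 < ε := by positivity
  have h1 : Real.log z ≤ z ^ ε / ε := Real.log_le_rpow_div (by linarith) hε0
  have h2 : 1 ≤ z ^ ε := Real.one_le_rpow hz hε0.le
  have h3 : z ^ ε / ε = 2 * ((p : ℝ) + 1) * z ^ ε := by
    rw [hε]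
    field_simp
  have h4 : 1 + 2 * Real.log z ≤ (4 * (p : ℝ) + 5) * z ^ ε := by
    rw [h3] at h1
    nlinarith
  have h0 : 0 ≤ 1 + 2 * Real.log z := by
    have := Real.log_nonneg hz
    linarith
  calc (1 + 2 * Real.log z) ^ p ≤ ((4 * (p : ℝ) + 5) * z ^ ε) ^ p := pow_le_pow_left₀ h0 h4 p
    _ = (4 * (p : ℝ) + 5) ^ p * (z ^ ε) ^ p := mul_pow _ _ _
    _ ≤ (4 * (p : ℝ) + 5) ^ p * √z := by
      apply mul_le_mul_of_nonneg_left _ (by positivity)
      rw [← Real.rpow_natCast (z ^ ε) p, ← Real.rpow_mul (by linarith), Real.sqrt_eq_rpow]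
      apply Real.rpow_le_rpow_of_exponent_le hz
      rw [hε, div_mul_eq_mul_div, one_mul, div_le_div_iff₀ (by positivity) (by norm_num)]
      linarith

theorem T6 : Pool.Agent.H666.LRC.S_logsum := by
  intro p
  refine ⟨4 * (4 * (p : ℝ) + 5) ^ p, by positivity, ?_⟩
  intro h hh hh2 R
  set L := Real.log (1 / h) with hL
  have hL2 : 1 / 2 ≤ L := by
    have h1 : Real.log 2 ≤ L := by
      apply Real.log_le_log (by norm_num)
      rw [le_div_iff₀ hh]
      linarith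
    have h2 := Real.log_two_gt_d9
    linarith
  have hA : 0 < (4 * (p : ℝ) + 5) ^ p := by positivity
  have term : ∀ k ∈ Finset.Icc 1 R, Real.log ((k : ℝ) + 1) ^ p / (1 + (h * k) ^ 2) ≤
      (2 * (4 * (p : ℝ) + 5) ^ p * L ^ p / h) * (h / (√(1 + h * (k : ℝ))) ^ 3) := by
    intro k hk
    have hk0 : (0 : ℝ) ≤ k := Nat.cast_nonneg k
    set z := 1 + h * (k : ℝ) with hz
    have hz1 : 1 ≤ z := by
      have : 0 ≤ h * (k : ℝ) := by positivity
      linarith
    have hz0 : 0 < z := by linarith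
    have l1 : Real.log ((k : ℝ) + 1) ≤ L + Real.log z := by
      rw [hL, ← Real.log_mul (by positivity) hz0.ne']
      apply Real.log_le_log (by positivity)
      rw [div_mul_eq_mul_div, one_mul, le_div_iff₀ hh]
      nlinarith
    have l2 : 0 ≤ Real.log z := Real.log_nonneg hz1
    have l3 : Real.log ((k : ℝ) + 1) ≤ L * (1 + 2 * Real.log z) := by nlinarith
    have l4 : 0 ≤ Real.log ((k : ℝ) + 1) := Real.log_nonneg (by linarith)
    have l5 : Real.log ((k : ℝ) + 1) ^ p ≤ L ^ p * ((4 * (p : ℝ) + 5) ^ p * √z) := by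
      calc Real.log ((k : ℝ) + 1) ^ p ≤ (L * (1 + 2 * Real.log z)) ^ p := pow_le_pow_left₀ l4 l3 p
        _ = L ^ p * (1 + 2 * Real.log z) ^ p := mul_pow _ _ _
        _ ≤ L ^ p * ((4 * (p : ℝ) + 5) ^ p * √z) :=
          mul_le_mul_of_nonneg_left (pow_log p z hz1) (by positivity)
    have hs0 : 0 < √z := Real.sqrt_pos.2 hz0
    have hs2 : √z ^ 2 = z := Real.sq_sqrt hz0.le
    have hq : z ^ 2 ≤ 2 * (1 + (h * (k : ℝ)) ^ 2) := by
      rw [hz]
      nlinarith [sq_nonneg (1 - h * (k : ℝ))]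
    have hden : 0 < 1 + (h * (k : ℝ)) ^ 2 := by positivity
    have r1 : (2 * (4 * (p : ℝ) + 5) ^ p * L ^ p / h) * (h / √z ^ 3) =
        2 * (L ^ p * (4 * (p : ℝ) + 5) ^ p) / √z ^ 3 := by
      field_simp
    rw [r1, div_le_div_iff₀ hden (by positivity)]
    calc Real.log ((k : ℝ) + 1) ^ p * √z ^ 3
        ≤ (L ^ p * ((4 * (p : ℝ) + 5) ^ p * √z)) * √z ^ 3 :=
          mul_le_mul_of_nonneg_right l5 (by positivity)
      _ = L ^ p * (4 * (p : ℝ) + 5) ^ p * z ^ 2 := by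
          rw [← hs2]
          ring_nf
          rw [Real.sqrt_sq hs0.le]
      _ ≤ L ^ p * (4 * (p : ℝ) + 5) ^ p * (2 * (1 + (h * (k : ℝ)) ^ 2)) :=
          mul_le_mul_of_nonneg_left hq (by positivity)
      _ = 2 * (L ^ p * (4 * (p : ℝ) + 5) ^ p) * (1 + (h * (k : ℝ)) ^ 2) := by ring
  calc ∑ k ∈ Finset.Icc 1 R, Real.log ((k : ℝ) + 1) ^ p / (1 + (h * k) ^ 2)
      ≤ ∑ k ∈ Finset.Icc 1 R, (2 * (4 * (p : ℝ) + 5) ^ p * L ^ p / h) *
          (h / (√(1 + h * (k : ℝ))) ^ 3) := Finset.sum_le_sum term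
    _ = (2 * (4 * (p : ℝ) + 5) ^ p * L ^ p / h) *
          ∑ k ∈ Finset.Icc 1 R, h / (√(1 + h * (k : ℝ))) ^ 3 := by rw [Finset.mul_sum]
    _ ≤ (2 * (4 * (p : ℝ) + 5) ^ p * L ^ p / h) * 2 := by
        apply mul_le_mul_of_nonneg_left _ (by positivity)
        have h1 := tel h hh R
        have h2 : 0 ≤ 2 / √(1 + h * (R : ℝ)) := by positivity
        linarith
    _ = 4 * (4 * (p : ℝ) + 5) ^ p * L ^ p / h := by ring

end Pool.Agent.H162.LRC
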